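import Pool.Agent.Lib.MP_72b52d_lc.CR.Stmt

/-!
# MP_764a00_al : the question in a transitive model of ZFC

(`V`, `IsTransModelZFC` are defined in the imported file: the universe of sets and the transitive
models of `ZFC`.)
-/

namespace Pool.Agent.CNW

open Pool.Agent.CR (V IsTransModelZFC)

/-- The elements of the set `A`. -/
abbrev El (A : V) : Type 1 := {x : V // x ∈ A}

/-- The graph of the addition of a group with the underlying set `A` belongs to `N`. -/
def AddIn (N : Set V) (A : V) (_ : AddCommGroup (El A)) : Prop :=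
  ∃ S ∈ N, ∀ z : V, z ∈ S ↔ ∃ a b : El A, z = ZFSet.pair (ZFSet.pair a.1 b.1) (a + b).1

/-- The graph of the order of the lattice `l` with the underlying set `A` belongs to `N`.
(We write `l.le a b` because `a ≤ b` could be read as inclusion of sets.) -/
def OrdIn (N : Set V) (A : V) (l : Lattice (El A)) : Prop :=
  ∃ S ∈ N, ∀ z : V, z ∈ S ↔ ∃ a b : El A, l.le a b ∧ z = ZFSet.pair a.1 b.1

/-- `Q1` in the transitive model `N`: every torsion-free abelian group of `N` has a lattice order
in `N` which is translation-invariant and Archimedean. -/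
def Q1 (N : Set V) : Prop :=
  ∀ A ∈ N, ∀ g : AddCommGroup (El A), AddIn N A g →
    (∀ x : El A, ∀ n : ℕ, n ≠ 0 → n • x = 0 → x = 0) →
    ∃ l : Lattice (El A), OrdIn N A l ∧ (∀ a b c : El A, l.le a b → l.le (c + a) (c + b)) ∧
      ∀ a b : El A, (∀ n : ℕ, l.le (n • a) b) → l.le a 0

end Pool.Agent.CNW
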