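import Pool.Agent.Lib.MP_764a00_al.Stm
import Pool.Agent.Lib.MP_764a00_al.W.Q
import Pool.Agent.Lib.MP_d988c5_lc.FW

/-!
# MP_764a00_al : the statements of the pieces about the models
-/

namespace Pool.Agent.CNW

open Pool.Agent.CN Pool.Agent.CR Cardinal

section

variable (M : Type) [AddCommGroup M] (B : Set M) (lam : Cardinal.{0})

/-- objects: names, conditions, elements of `M` -/
inductive Ob : Type 1
  | nm (τ : Nm (Cond M B lam)) : Ob
  | cn (p : Cond M B lam) : Ob
  | el (x : M) : Ob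

variable {M B lam}

/-- the name of an object -/
def unNm : Ob M B lam → Nm (Cond M B lam)
  | .nm τ => τ
  | _ => Nm.emp

variable (M B lam)

/-- the presentation -/
def ppi : FW.Pr (Cond M B lam) (Ob M B lam) where
  nm := .nm
  cn := .cn
  un := unNm
  un_nm _ := rfl
  cn_inj _ _ h := by simpa using h

variable {M B lam}

/-- a well-order of `M` -/
def wlt : M → M → Prop := WellOrderingRel

/-- the name of the element `x`: its value is the set of the values of the names of the smaller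
elements of the world -/
noncomputable def elN (x : M) : Nm (Cond M B lam) :=
  (IsWellFounded.wf (r := (WellOrderingRel : M → M → Prop))).fix
    (C := fun _ => Nm (Cond M B lam))
    (fun x ih => .mk {z : M × Cond M B lam // WellOrderingRel z.1 x} (fun z => ih z.1.1 z.2)
      (fun z => z.1.2)) x

/-- the name of the group -/
noncomputable def grN : Nm (Cond M B lam) :=
  .mk {z : M × Cond M B lam // z.1 ∈ z.2.H} (fun z => elN z.1.1) (fun z => z.1.2)

/-- the name of the graph of the addition -/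
noncomputable def adN : Nm (Cond M B lam) :=
  .mk {z : M × M × Cond M B lam // z.1 ∈ z.2.2.H ∧ z.2.1 ∈ z.2.2.H}
    (fun z => FW.opN (FW.opN (elN z.1.1) (elN z.1.2.1)) (elN (z.1.1 + z.1.2.1)))
    (fun z => z.1.2.2)

/-- the group of the world -/
def Gw (S : Set (Ob M B lam)) (G : Set (Cond M B lam)) : Set M :=
  {x | Ob.el x ∈ S ∧ ∃ p ∈ G, x ∈ p.H}

/-- the condition `p` forces `x ≤ y` for the order named by `τ` -/
def Rn (τ : Nm (Cond M B lam)) (p : Cond M B lam) (x y : M) : Prop :=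
  Memf (FW.opN (elN x) (elN y)) τ p

/-- the relation of the world given by `τ` -/
def Le (G : Set (Cond M B lam)) (τ : Nm (Cond M B lam)) (x y : M) : Prop :=
  ∃ p ∈ G, Rn τ p x y

/-- the relation `le` is an Archimedean lattice order of the subgroup `A` of `M` -/
structure IsAL (A : Set M) (le : M → M → Prop) : Prop where
  rfl : ∀ x ∈ A, le x x
  trans : ∀ x ∈ A, ∀ y ∈ A, ∀ z ∈ A, le x y → le y z → le x z
  anti : ∀ x ∈ A, ∀ y ∈ A, le x y → le y x → x = y
  add : ∀ x ∈ A, ∀ y ∈ A, ∀ z ∈ A, le x y → le (z + x) (z + y)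
  pos : ∀ x ∈ A, ∃ y ∈ A, le 0 y ∧ le x y ∧ ∀ z ∈ A, le 0 z → le x z → le y z
  arch : ∀ x ∈ A, ∀ y ∈ A, (∀ n : ℕ, le (n • x) y) → le x 0

end

/-- the names of the elements -/
def S_W1 : Prop := ∀ (M : Type) [AddCommGroup M] (B : Set M) (lam : Cardinal.{0}),
  FW.Ev (ppi M B lam) (fun S G =>
    (∀ x : M, elN x ∈ (ppi M B lam).H S ↔ Ob.el x ∈ S) ∧
    ∀ x y : M, Ob.el x ∈ S → Ob.el y ∈ S →
      (ppi M B lam).vl S G (elN x) = (ppi M B lam).vl S G (elN y) → x = y)

/-- the group of the world is closed under the operations -/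
def S_W2 : Prop := ∀ (M : Type) [AddCommGroup M] (B : Set M) (lam : Cardinal.{0}),
  FW.Ev (ppi M B lam) (fun S G => ∃ A : AddSubgroup M, (A : Set M) = Gw S G)

/-- the value of the name of the group -/
def S_W3 : Prop := ∀ (M : Type) [AddCommGroup M] (B : Set M) (lam : Cardinal.{0}),
  FW.Ev (ppi M B lam) (fun S G => grN ∈ (ppi M B lam).H S ∧
    ∀ z : V, z ∈ (ppi M B lam).vl S G grN ↔ ∃ x ∈ Gw S G, z = (ppi M B lam).vl S G (elN x))

/-- the value of the name of the addition -/
def S_W4 : Prop := ∀ (M : Type) [AddCommGroup M] (B : Set M) (lam : Cardinal.{0}),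
  FW.Ev (ppi M B lam) (fun S G => adN ∈ (ppi M B lam).H S ∧
    ∀ z : V, z ∈ (ppi M B lam).vl S G adN ↔ ∃ x ∈ Gw S G, ∃ y ∈ Gw S G,
      z = ZFSet.pair (ZFSet.pair ((ppi M B lam).vl S G (elN x)) ((ppi M B lam).vl S G (elN y)))
        ((ppi M B lam).vl S G (elN (x + y))))

/-- the relations of the world -/
def S_W5 : Prop := ∀ (M : Type) [AddCommGroup M] (B : Set M) (lam : Cardinal.{0}),
  FW.Ev (ppi M B lam) (fun S G => ∀ τ ∈ (ppi M B lam).H S, ∀ x ∈ Gw S G, ∀ y ∈ Gw S G,
    (ZFSet.pair ((ppi M B lam).vl S G (elN x)) ((ppi M B lam).vl S G (elN y)) ∈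
      (ppi M B lam).vl S G τ ↔ Le G τ x y))

/-- if the relation is an Archimedean lattice order in the world then this is forced -/
def S_W6 : Prop := ∀ (M : Type) [AddCommGroup M] (B : Set M) (lam : Cardinal.{0}),
  FW.Ev (ppi M B lam) (fun S G => ∀ τ ∈ (ppi M B lam).H S, IsAL (Gw S G) (Le G τ) →
    ∃ p ∈ G, Gd (Rn τ) p)

/-- the forced relations are monotone -/
def S_W7 : Prop := ∀ (M : Type) [AddCommGroup M] (B : Set M) (lam : Cardinal.{0})
  (τ : Nm (Cond M B lam)) (p q : Cond M B lam) (x y : M), q ≤ p → Rn τ p x y → Rn τ q x y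

/-- the model -/
def S_B : Prop := ∃ N : Set V, N.Countable ∧ IsTransModelZFC N ∧ ¬ Q1 N

end Pool.Agent.CNW
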